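import Pool.Agent.N869.GK.M.Gen
import Pool.Agent.N869.GK.StmX

/-!
# Project GK: the exact descent for one of several curves, the exact law for several curves
-/

set_option autoImplicit false
set_option linter.unusedVariables false
set_option linter.unusedSectionVars false

open scoped Classical

namespace Pool.Agent.N869.GK.X

open Finset Filter Topology
open Pool.Agent.Y703.CQ (nr)
open Pool.Agent.N916.GB (Po SA)
open Pool.Agent.N856.JL (sfp sfp_spec)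
open Pool.Agent.N869.QT.L (Fam)
open Pool.Agent.N869.QT.G (sys exC pr Dep)
open Pool.Agent.N869.ZE (cnt lc OkP mrg EE pr_congr)
open Pool.Agent.N869.ZE.A (lvB Indp)
open Pool.Agent.N869.GK
open Pool.Agent.N869.GK.A (bd ManyL AddL famT)
open Pool.Agent.N869.GK.D
open Pool.Agent.N869.GK.H (AsyH tuples goodT manyL tps cop_of_dvd L_prod L_sfp)
open Pool.Agent.N869.GK.M (CrvB crv_of unr_scale OkM S_ASYGM S_CJ6)
open Pool.Agent.N869.GK.N (Unr Dt S_SCALE S_CLS6)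
open Pool.Agent.TH841.SH (SelG)

/-- the leaves of the exact law -/
structure Lv : Prop where
  locn : ∀ (e1 e2 e3 : ℤ), e1 ≠ e2 → e1 ≠ e3 → e2 ≠ e3 → Many ℚ_[2] 8 e1 e2 e3 ∧
    ∀ (p : ℕ) [Fact p.Prime], Many ℚ_[p] 4 e1 e2 e3
  locr : S_LOCR
  apx : S_APX
  cntw : S_CNTW
  maxw : S_MAXW
  sur : S_SUR

/-- the descent for one curve, with a given enumeration of the classes -/
theorem des_eq (L : Lv) {b : Finset ℕ} {r : ℕ} {g : Fin r → ℤ} (hg : Gen b g) {e1 e2 e3 : ℤ}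
    (hC : Crv b e1 e2 e3) {k e : ℕ} (hcard : (SelG e1 e2 e3).ncard = 2 ^ (2 * k + e)) :
    ∃ D : Par r, (D.em = ecl g (-1) ∧ D.ll = ecl g (e1 - e2) ∧
      D.aa = ecl g ((e1 - e2) * (e1 - e3)) ∧ D.bb = ecl g ((e2 - e1) * (e2 - e3))) ∧
      Ok D ∧ Rk D e ∧
      ∀ d : ℕ, Squarefree d → d.Coprime (MM b) → lam g d = 0 →
        (SelG (d * e1) (d * e2) (d * e3)).Finite ∧
        (SelG (d * e1) (d * e2) (d * e3)).ncard = {x | Sol D (lam g) nr d.primeFactors x}.ncard := by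
  have hGEN := Pool.Agent.N27.GK.t_GEN
  have hLAB := Pool.Agent.N195.GK.LAB.t_LAB
  have hLCG := Pool.Agent.N340.GK.LCG.t_LCG
  have hUNR := Pool.Agent.N413.GK.t_UNR
  have hodd : ∀ l ∈ b, l.Prime ∧ l ≠ 2 := fun l hl => ⟨((hC.mem l).1 hl).1, ((hC.mem l).1 hl).2.1⟩
  obtain ⟨g1, g2, g3, g4, g5⟩ := hGEN.2 b r g hg
  obtain ⟨l1, l2, l3, l4, l5, l6, l7⟩ := hLAB hGEN b r g hg
  obtain ⟨W, hW, hq, ht1, ht2⟩ := Pool.Agent.N3.GK.W0.t_W0 hGEN hLAB Pool.Agent.N603.GK.HS.t_HS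
    Pool.Agent.N954.GK.t_QV hLCG b e1 e2 e3 r g hg hC
  have hcnt : 4 ^ r ≤ Nat.card W := by
    refine (L.cntw hGEN hLAB hLCG L.apx b e1 e2 e3 r g hg hC
      (L.locr e1 e2 e3 hC.h12 hC.h13 hC.h23)
      (L.locn e1 e2 e3 hC.h12 hC.h13 hC.h23).1
      (fun p _ => (L.locn e1 e2 e3 hC.h12 hC.h13 hC.h23).2 p)).trans (le_of_eq ?_)
    exact Nat.card_congr (Equiv.subtypeEquivRight fun X => (hW X).symm)
  have hm : ∀ Y, (∀ X ∈ W, bS (PD g e1 e2 e3 W) X Y = 0) → Y ∈ W :=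
    L.maxw r (PD g e1 e2 e3 W) hq hcnt
  have n12 : e1 - e2 ≠ 0 := sub_ne_zero.2 hC.h12
  have n13 : e1 - e3 ≠ 0 := sub_ne_zero.2 hC.h13
  have n23 : e2 - e3 ≠ 0 := sub_ne_zero.2 hC.h23
  have n21 : e2 - e1 ≠ 0 := sub_ne_zero.2 hC.h12.symm
  have hdiv : ∀ n : ℤ, n ∣ (e1 - e2) * (e1 - e3) * (e2 - e3) * (e1 - e2) →
      ∀ p : ℕ, p.Prime → (p : ℤ) ∣ n → p = 2 ∨ p ∈ b := by
    intro n hn p hp hpn
    by_cases h2 : p = 2
    · exact Or.inl h2
    · right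
      refine (hC.mem p).2 ⟨hp, h2, ?_⟩
      have hp' : Prime (p : ℤ) := Nat.prime_iff_prime_int.1 hp
      rcases hp'.dvd_mul.1 (hpn.trans hn) with h | h
      · exact h
      · exact (h.mul_right (e1 - e3)).mul_right (e2 - e3)
  have ea := g5 ((e1 - e2) * (e1 - e3)) (mul_ne_zero n12 n13)
    (hdiv _ ⟨(e2 - e3) * (e1 - e2), by ring⟩)
  have eb := g5 ((e2 - e1) * (e2 - e3)) (mul_ne_zero n21 n23)
    (hdiv _ ⟨-((e1 - e3) * (e1 - e2)), by ring⟩)
  have em := g5 (-1) (by norm_num) (hdiv _ ⟨-((e1 - e2) * (e1 - e3) * (e2 - e3) * (e1 - e2)), by ring⟩)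
  have hr0 : ∀ x, rep g x ≠ 0 := fun x => (g1 x).ne_zero
  set A := ecl g ((e1 - e2) * (e1 - e3)) with hA
  set B := ecl g ((e2 - e1) * (e2 - e3)) with hB
  set M := ecl g (-1) with hM
  refine ⟨PD g e1 e2 e3 W, ⟨rfl, rfl, rfl, rfl⟩, ?_, ?_, ?_⟩
  · refine ⟨fun X hX => hq X hX, fun Y hY => hm Y hY, ht1, ht2, ?_, ?_, ?_, ?_⟩
    · intro h0
      have h0' : A = 0 := h0
      rw [h0', rep_zero, mul_one] at ea
      exact hC.n1 ea
    · intro h0
      have h0' : B = 0 := h0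
      rw [h0', rep_zero, mul_one] at eb
      exact hC.n2 eb
    · intro h0
      have h0' : A + B = M := h0
      have h1 := g3 A B
      rw [h0'] at h1
      have h2 := ((ea.mul eb).mul em).mul h1
      apply hC.n3
      refine sq_cancel (s := (e1 - e2) * (rep g A * rep g B * rep g M)) (mul_ne_zero n12
        (mul_ne_zero (mul_ne_zero (hr0 A) (hr0 B)) (hr0 M))) ?_
      have h3 : (e3 - e1) * (e3 - e2) * ((e1 - e2) * (rep g A * rep g B * rep g M)) ^ 2 =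
          (e1 - e2) * (e1 - e3) * rep g A * ((e2 - e1) * (e2 - e3) * rep g B) * (-1 * rep g M) *
            (rep g A * rep g B * rep g M) := by ring
      rw [h3]
      exact h2
    · rintro ⟨h1, h2⟩
      have h1' : A = M := h1
      have h2' : B = M := h2
      rw [h1'] at ea
      rw [h2'] at eb
      have hM2 : 0 < rep g M * rep g M := by
        have := mul_self_pos.2 (hr0 M)
        exact this
      have k1 := (ea.mul em).nonneg
      have k2 := (eb.mul em).nonneg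
      have k3 : (e1 - e2) * (e1 - e3) ≤ 0 := by
        by_contra hcon
        push Not at hcon
        have : 0 < (e1 - e2) * (e1 - e3) * (rep g M * rep g M) := mul_pos hcon hM2
        nlinarith
      have k4 : (e2 - e1) * (e2 - e3) ≤ 0 := by
        by_contra hcon
        push Not at hcon
        have : 0 < (e2 - e1) * (e2 - e3) * (rep g M * rep g M) := mul_pos hcon hM2
        nlinarith
      have k5 : 0 < (e1 - e2) * (e1 - e2) := mul_self_pos.2 n12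
      nlinarith
  · refine ⟨k, ?_⟩
    rw [← hcard, ← Pool.Agent.N263.GK.t_RK hGEN hLAB hLCG Pool.Agent.N592.GK.t_GOOD hUNR b e1 e2 e3
      r g hg hC]
    refine Nat.card_congr (Equiv.subtypeEquivRight fun s => ?_)
    show ((s, 0) : Hr r) ∈ W ↔ _
    rw [hW]
  · intro d hd hdc hd0
    obtain ⟨h1, h2⟩ := Pool.Agent.N595.GK.t_INJ Pool.Agent.N853.GK.t_SUB hGEN hLAB hLCG hUNR
      Pool.Agent.N434.GK.t_RAM b e1 e2 e3 r g hg hC W (fun X hX => (hW X).2 hX) d hd hdc hd0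
    refine ⟨h1, le_antisymm h2 ?_⟩
    exact L.sur Pool.Agent.N853.GK.t_SUB hGEN hLAB hLCG Pool.Agent.N592.GK.t_GOOD hUNR
      Pool.Agent.N434.GK.t_RAM b e1 e2 e3 r g hg hC W (fun X hX => (hW X).1 hX) d hd hdc hd0 h1

/-! ### The exact law -/

/-- the ranks of the right parity -/
def Pa {C : Type} (e : C → ℕ) : Type := {ρ : C → ℕ // ∀ k, ρ k % 2 = e k % 2}

/-- the law -/
noncomputable def KX {C : Type} [Fintype C] (e : C → ℕ) (ρ : Pa e) : ℝ := ∏ k, kap (ρ.1 k)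

/-- the rank of the curve `k` is `ρ k` -/
def GX {r : ℕ} {C : Type} (D : C → Par r) (lb : ℕ → Gr r) (e : C → ℕ) (ρ : Pa e)
    (S : Finset ℕ) : Prop := ∀ k, Gk (D k) lb nr (ρ.1 k) S

theorem kx_bd {C : Type} [Fintype C] (e : C → ℕ) : ∀ ρ : Pa e, 0 ≤ KX e ρ ∧ KX e ρ ≤ 1 :=
  fun ρ => ⟨prod_nonneg fun k _ => (Pool.Agent.N869.GK.H.kap_bd (ρ.1 k)).1,
    prod_le_one (fun k _ => (Pool.Agent.N869.GK.H.kap_bd (ρ.1 k)).1)
      fun k _ => (Pool.Agent.N869.GK.H.kap_bd (ρ.1 k)).2⟩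

theorem asyX (hASY : S_ASYGM) {r : ℕ} {C : Type} [Fintype C] {D₀ : Par r} {D : C → Par r}
    (hD : OkM D₀ D) {e : C → ℕ} (he : ∀ k, Rk (D k) (e k)) {M : ℕ} {lb : ℕ → Gr r}
    (hlb : LabOk D₀ M lb) : AsyH (KX e) (GX D lb e) M lb := by
  intro I Q _ _ _ E hE ρ P hP ε hε
  refine hASY r C D₀ D hD e he M lb hlb (Gr r × Bool) (lvB lb (bd M)) (fun x => x.1)
    {x | x.2 = true} ?_ (fun p _ => rfl) I Q E hE (fun a k => (ρ a).1 k)
    (fun a k => (ρ a).2 k) P hP _ hε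
  intro p _ hpM
  show decide (p ∈ bd M) = true
  exact decide_eq_true hpM

/-- the 2-Selmer groups of the twists of all the curves have the given orders -/
def sX {C : Type} (e : C → Fin 3 → ℤ) {n : ℕ} (ρ : Finset (Fin n) → C → ℕ)
    (𝒯 : Finset (Finset (Fin n))) (x : Fin n → ℕ) : Prop :=
  ∀ T ∈ 𝒯, ∀ k : C, ∀ d : ℕ, d = sfp (∏ i ∈ T, x i) →
    (SelG (d * e k 0) (d * e k 1) (d * e k 2)).ncard = 2 ^ (ρ T k + 2)

/-- the conclusion for `f` -/
def BigX {C : Type} [Fintype C] (b : Finset ℕ) (e : C → Fin 3 → ℤ) (w : Bool) {n : ℕ}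
    (ρ : Finset (Fin n) → C → ℕ) (𝒯 : Finset (Finset (Fin n))) (δ : ℝ) (f : ℕ) : Prop :=
  (tps b w n f).Finite ∧ 0 < (tps b w n f).ncard ∧
    |({x ∈ tps b w n f | sX e ρ 𝒯 x}.ncard : ℝ) / ((tps b w n f).ncard : ℝ) -
      ∏ T ∈ 𝒯, ∏ k, kap (ρ T k)| ≤ δ

/-- **The exact law for several curves with the same bad primes.** -/
theorem coreX (L : Lv) (hASY : S_ASYGM) (hCLS : S_CLS6) (hCJ : S_CJ6) {b : Finset ℕ}
    (hb : ∀ l ∈ b, l.Prime ∧ l ≠ 2) {C : Type} [Fintype C]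
    {e : C → Fin 3 → ℤ} (hC : ∀ k, Crv b (e k 0) (e k 1) (e k 2))
    (hu : ∀ k k', k ≠ k' → Unr (e k) (e k')) {kk ee : C → ℕ}
    (hcard : ∀ k, (SelG (e k 0) (e k 1) (e k 2)).ncard = 2 ^ (2 * kk k + ee k))
    (w : Bool) (n : ℕ) (hn : w = true → 2 ≤ n)
    (𝒯 : Finset (Finset (Fin n))) (h𝒯 : ∀ T ∈ 𝒯, T.Nonempty) (ρ : Finset (Fin n) → C → ℕ)
    (hρ : ∀ T ∈ 𝒯, ∀ k, ρ T k % 2 = ee k % 2) {δ : ℝ} (hδ : 0 < δ)
    (i1 : DecidablePred fun f : ℕ => (Squarefree f ∧ f.Coprime (MM b)) ∧ BigX b e w ρ 𝒯 δ f)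
    (i2 : DecidablePred fun f : ℕ => Squarefree f ∧ f.Coprime (MM b)) :
    Tendsto (fun X : ℕ => ((@Finset.filter ℕ (fun f => (Squarefree f ∧ f.Coprime (MM b)) ∧
      BigX b e w ρ 𝒯 δ f) i1 (Icc 1 X)).card : ℝ) /
      ((@Finset.filter ℕ (fun f => Squarefree f ∧ f.Coprime (MM b)) i2 (Icc 1 X)).card : ℝ))
      atTop (𝓝 1) := by
  have hGEN := Pool.Agent.N27.GK.t_GEN
  obtain ⟨r, g, hg⟩ := hGEN.1 b hb
  obtain ⟨l1, l2, hz, l4, l5, l6, l7⟩ := Pool.Agent.N195.GK.LAB.t_LAB hGEN b r g hg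
  choose D hDt hok hRk hsel using fun k => des_eq L hg (hC k) (hcard k)
  set D₀ : Par r := { em := ecl g (-1), ll := 0, aa := 0, bb := 0, W := ⊥ } with hD₀
  have hlb : LabOk D₀ (MM b) (lam g) :=
    { toLabZ := l5
      uu := l6
      surj := fun π => by
        obtain ⟨a, ha, h⟩ := l2 π
        exact ⟨a, ha, fun p _ hp => h p hp⟩ }
  have hD : OkM D₀ D := ⟨hok, fun k => (hDt k).1, fun k k' hkk =>
    hCLS hGEN hCJ b r g hg (e k) (e k') (hC k) (hC k') (D k) (D k') (hDt k) (hDt k') (hu k k' hkk)⟩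
  have hr : 0 < r := by
    obtain ⟨i, -⟩ := (hg.im (-1)).2 (Or.inl rfl)
    exact lt_of_le_of_lt (Nat.zero_le _) i.2
  have h2 : 2 ∣ MM b := ⟨4 * ∏ l ∈ b, l, by unfold MM; ring⟩
  have hAddL : AddL (MM b) (lam g) := by
    intro S hS
    refine L_prod l1 S (fun p => p) fun p hp => ?_
    exact (Nat.Prime.coprime_iff_not_dvd (hS p hp).1).2 (hS p hp).2
  set ρ' : Finset (Fin n) → Pa ee := fun T =>
    if h : ∀ k, ρ T k % 2 = ee k % 2 then ⟨ρ T, h⟩ else ⟨ee, fun _ => rfl⟩ with hρ'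
  have hρe : ∀ T ∈ 𝒯, (ρ' T).1 = ρ T := by
    intro T hT
    have h1 : ρ' T = (⟨ρ T, hρ T hT⟩ : Pa ee) := dif_pos (hρ T hT)
    rw [h1]
  have key := tuples (Λ := Pa ee) (c := KX ee) (G := GX D (lam g) ee) (kx_bd ee)
    Pool.Agent.N835.GK.t_SQH hr hlb.pos h2 (manyL hlb) hAddL (asyX hASY hD hRk hlb) (b := w)
    (n := n) hn 𝒯 h𝒯 ρ' hδ (fun _ => Classical.propDecidable _) i2
  refine tendsto_of_tendsto_of_tendsto_of_le_of_le key tendsto_const_nhds ?_ ?_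
  · intro X
    refine div_le_div_of_nonneg_right (Nat.cast_le.2 (card_le_card ?_)) (Nat.cast_nonneg _)
    intro f hf
    simp only [mem_filter] at hf ⊢
    obtain ⟨hf0, ⟨hf1, hf2⟩, hf3, hf4, hf5⟩ := hf
    have efam : famT (lam g) w n f = tps b w n f := by
      ext x
      unfold famT tps
      simp only [Set.mem_setOf_eq]
      refine and_congr_left fun _ => ?_
      constructor
      · intro h i
        exact ⟨(h i).1, (hz (x i) (cop_of_dvd (h i).1 hf2)).1 (h i).2⟩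
      · intro h i
        exact ⟨(h i).1, (hz (x i) (cop_of_dvd (h i).1 hf2)).2 (h i).2⟩
    rw [efam] at hf3 hf4 hf5
    refine ⟨hf0, ⟨hf1, hf2⟩, hf3, hf4, ?_⟩
    have e5 : ∏ T ∈ 𝒯, KX ee (ρ' T) = ∏ T ∈ 𝒯, ∏ k, kap (ρ T k) := by
      refine prod_congr rfl fun T hT => ?_
      unfold KX
      rw [hρe T hT]
    have e6 : {x ∈ tps b w n f | goodT (GX D (lam g) ee) ρ' 𝒯 x} =
        {x ∈ tps b w n f | sX e ρ 𝒯 x} := by
      ext x
      refine and_congr_right fun hx1 => ?_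
      unfold goodT sX
      refine forall_congr' fun T => forall_congr' fun hT => ?_
      unfold GX
      rw [hρe T hT]
      refine forall_congr' fun k => ?_
      have hxf : ∀ i, (x i).Coprime (MM b) := fun i => cop_of_dvd (hx1.1 i).1 hf2
      have hx0 : ∀ i, 0 < x i := fun i =>
        Nat.pos_of_ne_zero fun h => hf1.ne_zero (zero_dvd_iff.1 (h ▸ (hx1.1 i).1))
      have hp0 : 0 < ∏ i ∈ T, x i := prod_pos fun i _ => hx0 i
      have hpc : (∏ i ∈ T, x i).Coprime (MM b) := Nat.Coprime.prod_left fun i _ => hxf i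
      obtain ⟨hL, hc⟩ := L_sfp l1 hp0 hpc
      have hL0 : lam g (sfp (∏ i ∈ T, x i)) = 0 := by
        rw [hL, L_prod l1 T x fun i _ => hxf i]
        exact sum_eq_zero fun i _ => (hz (x i) (hxf i)).2 ⟨(hx1.1 i).2.1, (hx1.1 i).2.2⟩
      obtain ⟨s, -, -, -, hsq⟩ := sfp_spec hp0
      obtain ⟨h6, h7⟩ := hsel k (sfp (∏ i ∈ T, x i)) hsq hc hL0
      constructor
      · intro hG d hd
        rw [hd, h7]
        exact hG
      · intro h8
        have h9 := h8 _ rfl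
        rw [h7] at h9
        exact h9
    rw [← e6, ← e5]
    exact hf5
  · intro X
    refine div_le_one_of_le₀ (Nat.cast_le.2 (card_le_card ?_)) (Nat.cast_nonneg _)
    intro f hf
    simp only [mem_filter] at hf ⊢
    exact ⟨hf.1, hf.2.1⟩

/-- **The exact law for several curves.** -/
theorem coreXG (L : Lv) (hASY : S_ASYGM) (hCLS : S_CLS6) (hCJ : S_CJ6) (hSC : S_SCALE)
    {b : Finset ℕ} (hb : ∀ l ∈ b, l.Prime ∧ l ≠ 2) {C : Type} [Fintype C]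
    {e : C → Fin 3 → ℤ} (hC : ∀ k, CrvB b (e k))
    (hu : ∀ k k', k ≠ k' → Unr (e k) (e k')) {kk ee : C → ℕ}
    (hcard : ∀ k, (SelG (e k 0) (e k 1) (e k 2)).ncard = 2 ^ (2 * kk k + ee k))
    (w : Bool) (n : ℕ) (hn : w = true → 2 ≤ n)
    (𝒯 : Finset (Finset (Fin n))) (h𝒯 : ∀ T ∈ 𝒯, T.Nonempty) (ρ : Finset (Fin n) → C → ℕ)
    (hρ : ∀ T ∈ 𝒯, ∀ k, ρ T k % 2 = ee k % 2) {δ : ℝ} (hδ : 0 < δ)
    (i1 : DecidablePred fun f : ℕ => (Squarefree f ∧ f.Coprime (MM b)) ∧ BigX b e w ρ 𝒯 δ f)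
    (i2 : DecidablePred fun f : ℕ => Squarefree f ∧ f.Coprime (MM b)) :
    Tendsto (fun X : ℕ => ((@Finset.filter ℕ (fun f => (Squarefree f ∧ f.Coprime (MM b)) ∧
      BigX b e w ρ 𝒯 δ f) i1 (Icc 1 X)).card : ℝ) /
      ((@Finset.filter ℕ (fun f => Squarefree f ∧ f.Coprime (MM b)) i2 (Icc 1 X)).card : ℝ))
      atTop (𝓝 1) := by
  have hs0 : ((∏ l ∈ b, l : ℕ) : ℤ) ≠ 0 := by
    have : (∏ l ∈ b, l : ℕ) ≠ 0 := prod_ne_zero_iff.2 fun l hl => (hb l hl).1.ne_zero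
    exact_mod_cast this
  set s : ℤ := ((∏ l ∈ b, l : ℕ) : ℤ) with hs
  have key := coreX L hASY hCLS hCJ hb (C := C) (e := fun k i => s ^ 2 * e k i)
    (fun k => crv_of hb (hC k)) (fun k k' h => unr_scale hs0 (hu k k' h)) (kk := kk) (ee := ee)
    (fun k => by
      show (SelG (s ^ 2 * e k 0) (s ^ 2 * e k 1) (s ^ 2 * e k 2)).ncard = _
      rw [hSC _ _ _ _ hs0]
      exact hcard k) w n hn 𝒯 h𝒯 ρ hρ hδ
    (fun _ => Classical.propDecidable _) i2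
  have e1 : ∀ f : ℕ, BigX b (fun k i => s ^ 2 * e k i) w ρ 𝒯 δ f ↔ BigX b e w ρ 𝒯 δ f := by
    intro f
    have e2 : ∀ x : Fin n → ℕ, sX (fun k i => s ^ 2 * e k i) ρ 𝒯 x ↔ sX e ρ 𝒯 x := by
      intro x
      unfold sX
      refine forall_congr' fun T => forall_congr' fun _ => forall_congr' fun k =>
        forall_congr' fun d => forall_congr' fun _ => ?_
      have e3 : SelG ((d : ℤ) * (s ^ 2 * e k 0)) (d * (s ^ 2 * e k 1)) (d * (s ^ 2 * e k 2)) =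
          SelG (d * e k 0) (d * e k 1) (d * e k 2) := by
        rw [← hSC (d * e k 0) (d * e k 1) (d * e k 2) s hs0]
        congr 1 <;> ring
      rw [e3]
    unfold BigX
    simp only [e2]
  have e4 : (fun f : ℕ => (Squarefree f ∧ f.Coprime (MM b)) ∧
      BigX b (fun k i => s ^ 2 * e k i) w ρ 𝒯 δ f) =
      fun f : ℕ => (Squarefree f ∧ f.Coprime (MM b)) ∧ BigX b e w ρ 𝒯 δ f :=
    funext fun f => propext (and_congr_right fun _ => e1 f)
  refine key.congr fun X => ?_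
  congr 2
  exact congrArg Finset.card (Finset.filter_congr_decidable _ _ _ |>.trans (by simp only [e4]) )

end Pool.Agent.N869.GK.X
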