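import Pool.Agent.N869.GK.X.Des
import Pool.Agent.N869.GK.Z.App

/-!
# Project GK: the exact law in the definitions of the hand-ins
-/

set_option autoImplicit false
set_option linter.unusedVariables false
set_option linter.unusedSectionVars false

open scoped Classical

namespace Pool.Agent.N869.GK.Z

open Finset Filter Topology WeierstrassCurve
open Pool.Agent.N856.JL (sfp sfp_spec)
open Pool.Agent.N869.GK (c4 kap)
open Pool.Agent.N869.GK.D (MM)
open Pool.Agent.N869.GK.X (Lv coreXG BigX sX)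
open Pool.Agent.TH841.SH (SelG)

/-- the 2-Selmer groups of the twists by the products have the dimensions `ρ T k + 2` -/
def Ex {m : ℕ} (e : Fin m → Fin 3 → ℤ) {n : ℕ} (ρ : Finset (Fin n) → Fin m → ℕ)
    (𝒯 : Finset (Finset (Fin n))) (x : Fin n → ℕ) : Prop :=
  ∀ T ∈ 𝒯, ∀ k : Fin m, SelRank (tw (∏ i ∈ T, (x i : ℤ)) (e k)) (ρ T k)

/-- the proportion of the tuples with the property `P` differs from `q` by at most `δ` -/
def Near (N : ℕ) (w : Bool) {n : ℕ} (P : (Fin n → ℕ) → Prop) (q δ : ℝ) (f : ℕ) : Prop :=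
  (fam N w n f).Finite ∧ 0 < (fam N w n f).ncard ∧
    |({x ∈ fam N w n f | P x}.ncard : ℝ) / ((fam N w n f).ncard : ℝ) - q| ≤ δ

lemma Near.congr {N : ℕ} {w : Bool} {n : ℕ} {P Q : (Fin n → ℕ) → Prop} {q δ : ℝ} {f : ℕ}
    (h : Near N w P q δ f) (hPQ : ∀ x ∈ fam N w n f, P x ↔ Q x) : Near N w Q q δ f := by
  have e1 : {x ∈ fam N w n f | P x} = {x ∈ fam N w n f | Q x} := by
    ext x
    exact and_congr_right fun hx => hPQ x hx
  unfold Near at h ⊢
  rw [e1] at h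
  exact h

/-- **The general exact theorem.** -/
theorem genX (L : Lv) {N : ℕ} (hN : 0 < N) {m : ℕ} {e : Fin m → Fin 3 → ℤ}
    (he : ∀ k, Kane N (e k)) {r : Fin m → ℕ} (hr : ∀ k, SelRank (e k) (r k))
    (ha : ∀ k k', k ≠ k' → Apart (e k) (e k'))
    (w : Bool) (n : ℕ) (hn : w = true → 2 ≤ n) (𝒯 : Finset (Finset (Fin n)))
    (h𝒯 : ∀ T ∈ 𝒯, T.Nonempty) (ρ : Finset (Fin n) → Fin m → ℕ)
    (hρ : ∀ T ∈ 𝒯, ∀ k, ρ T k % 2 = r k % 2) {δ : ℝ} (hδ : 0 < δ) :
    AlmostAll (Conductor N) (Near N w (Ex e ρ 𝒯) (∏ T ∈ 𝒯, ∏ k, law (ρ T k)) δ) := by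
  have hb : ∀ l ∈ bN N, l.Prime ∧ l ≠ 2 := fun l hl =>
    ⟨((bN_mem hN).1 hl).1, ((bN_mem hN).1 hl).2.1⟩
  have hcard : ∀ k, (SelG (e k 0) (e k 1) (e k 2)).ncard = 2 ^ (2 * 1 + r k) := by
    intro k
    have h1 := (selrank_iff (he k) one_ne_zero (r k)).1 (by rw [tw_one]; exact hr k)
    rw [one_mul, one_mul, one_mul] at h1
    rw [h1]
    congr 1
    ring
  have key := coreXG L Pool.Agent.N869.GK.M.t_ASYGM' Pool.Agent.N163.GK.t_CLS6
    Pool.Agent.N853.GK.CJ6.t_CJ6 Pool.Agent.N853.GK.SCALE.t_SCALE hb (C := Fin m) (e := e)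
    (fun k => crvB hN (he k)) (fun k k' h => unr (ha k k' h)) (kk := fun _ => 1) (ee := r) hcard
    w n hn 𝒯 h𝒯 ρ hρ hδ (fun _ => Classical.propDecidable _) (fun _ => Classical.propDecidable _)
  have key' : AlmostAll (fun f => Squarefree f ∧ f.Coprime (MM (bN N)))
      (BigX (bN N) e w ρ 𝒯 δ) := by
    unfold AlmostAll count
    exact key
  have e0 : (fun f : ℕ => Squarefree f ∧ f.Coprime (MM (bN N))) = Conductor N :=
    funext fun f => propext (and_congr_right fun _ => cop_iff hN f)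
  rw [e0] at key'
  refine key'.mono fun f hf hB => ?_
  obtain ⟨h1, h2, h3⟩ := hB
  rw [fam_eq hN] at h1 h2 h3
  refine Near.congr (P := sX e ρ 𝒯) ⟨h1, h2, h3⟩ ?_
  intro x hx
  unfold sX Ex
  refine forall_congr' fun T => forall_congr' fun hT => forall_congr' fun k => ?_
  have hpos : 0 < ∏ i ∈ T, x i := prod_pos fun i _ => fam_pos hf hx i
  have hne : (∏ i ∈ T, (x i : ℤ)) ≠ 0 := by exact_mod_cast hpos.ne'
  rw [selrank_iff (he k) hne]
  have e2 := sel_sfp (e k) hpos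
  push_cast at e2
  rw [e2]
  constructor
  · intro h
    exact h _ rfl
  · intro h d hd
    rw [hd]
    exact h

/-- the events are the same if the property does not depend on the choice of the divisors -/
lemma selrank_zero {N : ℕ} {e : Fin 3 → ℤ} (h : Kane N e) {t : ℤ} (ht : t ≠ 0) :
    SelRank (tw t e) 0 ↔ rank ℚ (tw t e) = 0 ∧ ∀ x : Sha ℚ (tw t e), x + x = 0 → x = 0 := by
  obtain ⟨h1, -⟩ := sel_tw h ht
  unfold SelRank
  have := h1
  have hne : Nonempty {x : Sha ℚ (tw t e) // x + x = 0} := ⟨⟨0, add_zero 0⟩⟩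
  have hpos : 0 < Nat.card {x : Sha ℚ (tw t e) // x + x = 0} := Nat.card_pos
  constructor
  · rintro ⟨-, h2⟩
    rw [pow_zero] at h2
    obtain ⟨h3, h4⟩ := mul_eq_one.1 h2
    refine ⟨(Nat.pow_eq_one.1 h3).resolve_left (by norm_num), fun x hx => ?_⟩
    have hsub : Subsingleton {x : Sha ℚ (tw t e) // x + x = 0} :=
      (Nat.card_eq_one_iff_unique.1 h4).1
    exact congrArg Subtype.val (Subsingleton.elim
      (⟨x, hx⟩ : {x : Sha ℚ (tw t e) // x + x = 0}) ⟨0, add_zero 0⟩)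
  · rintro ⟨h2, h3⟩
    refine ⟨h1, ?_⟩
    have hsub : Subsingleton {x : Sha ℚ (tw t e) // x + x = 0} :=
      ⟨fun x y => Subtype.ext ((h3 _ x.2).trans (h3 _ y.2).symm)⟩
    have h4 : Nat.card {x : Sha ℚ (tw t e) // x + x = 0} = 1 := Nat.card_unique
    rw [h2, h4]
    rfl

end Pool.Agent.N869.GK.Z
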