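import Pool.Agent.N869.GK.X.Fin
import Pool.Agent.N488.GK.HALFK
import Pool.Agent.N661.GK.TWOT
import Pool.Agent.N265.GK.REPK
import Pool.Agent.N342.GK.HRB
import Pool.Agent.N273.GK.DBL
import Pool.Agent.N91.GK.DTW
import Pool.Agent.N247.GK.DIF
import Pool.Agent.N723.GK.TRL
import Pool.Agent.N617.GK.TORB
import Pool.Agent.N386.GK.XDIVB
import Pool.Agent.N835.GK.LOCN
import Pool.Agent.N514.GK.LOCR
import Pool.Agent.N67.GK.APX
import Pool.Agent.N306.GK.CNTW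
import Pool.Agent.N401.GK.MAXW
import Pool.Agent.N454.GK.SUR

/-!
# Project GK: the parts of the exact law
-/

set_option autoImplicit false

open scoped Classical

namespace Pool.Agent.N869.GK.Z

open Finset
open Pool.Agent.N869.GK.X (Lv)
open Pool.Agent.N869.GK (kap)

/-- all the parts -/
theorem lv : Lv where
  locn := Pool.Agent.N835.GK.LOCN.t_LOCN Pool.Agent.N488.GK.t_HALFK Pool.Agent.N661.GK.t_TWOT
    Pool.Agent.N265.GK.t_REPK Pool.Agent.N342.GK.t_HRB Pool.Agent.N273.GK.DBL.t_DBL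
    Pool.Agent.N91.GK.t_DTW Pool.Agent.N247.GK.t_DIF Pool.Agent.N723.GK.TRL.t_TRL
    Pool.Agent.N617.GK.t_TORB Pool.Agent.N386.GK.XDIVB.t_DIVB
  locr := Pool.Agent.N514.GK.t_LOCR
  apx := Pool.Agent.N67.GK.APX.t_APX
  cntw := Pool.Agent.N306.GK.t_CNTW
  maxw := Pool.Agent.N401.GK.MAXW.t_MAXW
  sur := Pool.Agent.N454.GK.t_SUR

/-- **The exact joint law**, all the twists of all the curves. -/
theorem lawX {N : ℕ} (hN : 0 < N) {m : ℕ} {e : Fin m → Fin 3 → ℤ}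
    (he : ∀ k, Kane N (e k)) {r : Fin m → ℕ} (hr : ∀ k, SelRank (e k) (r k))
    (ha : ∀ k k', k ≠ k' → Apart (e k) (e k'))
    (w : Bool) (n : ℕ) (hn : w = true → 2 ≤ n) (𝒯 : Finset (Finset (Fin n)))
    (h𝒯 : ∀ T ∈ 𝒯, T.Nonempty) (ρ : Finset (Fin n) → Fin m → ℕ)
    (hρ : ∀ T ∈ 𝒯, ∀ k, ρ T k % 2 = r k % 2) {δ : ℝ} (hδ : 0 < δ) :
    AlmostAll (Conductor N) (Near N w (Ex e ρ 𝒯) (∏ T ∈ 𝒯, ∏ k, law (ρ T k)) δ) :=
  genX lv hN he hr ha w n hn 𝒯 h𝒯 ρ hρ hδ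

lemma law_zero : law 0 = kappa := by
  unfold law
  rw [prod_range_zero, mul_one]

/-- **The exact law for the minimal 2-Selmer groups.** -/
theorem lawX0 {N : ℕ} (hN : 0 < N) {m : ℕ} {e : Fin m → Fin 3 → ℤ}
    (he : ∀ k, Kane N (e k)) (hr : ∀ k, ∃ r, SelRank (e k) (2 * r))
    (ha : ∀ k k', k ≠ k' → Apart (e k) (e k'))
    (w : Bool) (n : ℕ) (hn : w = true → 2 ≤ n) (𝒯 : Finset (Finset (Fin n)))
    (h𝒯 : ∀ T ∈ 𝒯, T.Nonempty) {δ : ℝ} (hδ : 0 < δ) :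
    AlmostAll (Conductor N) (Near N w (Ex e (fun _ _ => 0) 𝒯) (kappa ^ (m * 𝒯.card)) δ) := by
  choose r hr using hr
  have key := lawX hN he hr ha w n hn 𝒯 h𝒯 (fun _ _ => 0) (fun T _ k => by omega) hδ
  have e1 : ∏ T ∈ 𝒯, ∏ k : Fin m, law 0 = kappa ^ (m * 𝒯.card) := by
    simp only [law_zero, prod_const, card_univ, Fintype.card_fin, pow_mul]
  rw [e1] at key
  exact key

end Pool.Agent.N869.GK.Z
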